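import Pool.Agent.Helper92.Perc.Main
import Pool.Agent.Helper69.RSW.DiagRule

/-!
Critical bond percolation on the square lattice: the boundary one-arm exponents `1/3` (half-planes
of all directions) and `2/3` (quarter planes, axis-parallel and diagonal), in the form of two-sided
bounds, with uniform constants, for the crossing probabilities of half annuli and quarter annuli.

* `crH a b m n`: in the half annulus `{z : m ≤ |z|_∞ ≤ n, a z₁ + b z₂ ≤ 0}` a vertex with
  `|z|_∞ = m` is joined to a vertex with `|z|_∞ = n` (`m = 0`: the origin is joined to distance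
  `n` in the half-plane, the half-plane one-arm probability);
* `crQ m n`: the same for the quarter annulus `{z : m ≤ |z|_∞ ≤ n, z₁, z₂ ≥ 0}`;
* `piQd n`: the origin is joined to `{x = n}` in the triangle `|y| ≤ x ≤ n`.
-/

set_option autoImplicit false

open H47Perc

namespace Pool.Agent.Results.MP_35f495_pr.ArmExponents

/-- There are `0 < c` and `C` such that for all `0 ≤ m ≤ n` and all directions `(a,b) ≠ 0`
the crossing probability of the half annulus lies between `c ((m+1)/(n+1))^(1/3)` and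
`C ((m+1)/(n+1))^(1/3)`, and the crossing probability of the quarter annulus between
`c ((m+1)/(n+1))^(2/3)` and `C ((m+1)/(n+1))^(2/3)`; and the one-arm probability of the
diagonal quarter plane between `c (1/(n+1))^(2/3)` and `C (1/(n+1))^(2/3)`. -/
theorem result : ∃ c C : ℝ, 0 < c ∧
    (∀ m n : ℕ, m ≤ n →
      (∀ a b : ℝ, (a ≠ 0 ∨ b ≠ 0) →
        c * (((m:ℝ) + 1) / (n + 1)) ^ (1 / 3 : ℝ) ≤ crH a b m n ∧
        crH a b m n ≤ C * (((m:ℝ) + 1) / (n + 1)) ^ (1 / 3 : ℝ)) ∧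
      c * (((m:ℝ) + 1) / (n + 1)) ^ (2 / 3 : ℝ) ≤ crQ m n ∧
      crQ m n ≤ C * (((m:ℝ) + 1) / (n + 1)) ^ (2 / 3 : ℝ)) ∧
    ∀ n : ℕ, c * (1 / ((n:ℝ) + 1)) ^ (2 / 3 : ℝ) ≤ piQd n ∧
      piQd n ≤ C * (1 / ((n:ℝ) + 1)) ^ (2 / 3 : ℝ) := by
  have hR : SumRule := by
    intro S hS
    classical
    have h := (sum_rule (1 / 2) S hS).1
    rw [aniso_half] at h
    unfold rightS topS cn
    linarith
  obtain ⟨c, C, hc, h1⟩ := crossing_all
  obtain ⟨c', C', hc', hC', h2, -⟩ := rotation45 hR H46.rsw_pLR diag_rule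
  have hC : 0 ≤ C := by
    obtain ⟨e1, e2⟩ := (h1 0 0 le_rfl).2
    have e3 : (((0:ℕ):ℝ) + 1) / ((0:ℕ) + 1) = 1 := by norm_num
    rw [e3, Real.one_rpow, mul_one] at e1 e2
    linarith
  refine ⟨min c (c' * c), max C (C' * C), lt_min hc (by positivity), fun m n hmn => ?_,
    fun n => ?_⟩
  · obtain ⟨h3, h4, h5⟩ := h1 m n hmn
    have hr1 : 0 ≤ (((m:ℝ) + 1) / (n + 1)) ^ (1 / 3 : ℝ) := by positivity
    have hr2 : 0 ≤ (((m:ℝ) + 1) / (n + 1)) ^ (2 / 3 : ℝ) := by positivity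
    refine ⟨fun a b hab => ?_, ?_, ?_⟩
    · exact ⟨(mul_le_mul_of_nonneg_right (min_le_left _ _) hr1).trans (h3 a b hab).1,
        (h3 a b hab).2.trans (mul_le_mul_of_nonneg_right (le_max_left _ _) hr1)⟩
    · exact (mul_le_mul_of_nonneg_right (min_le_left _ _) hr2).trans h4
    · exact h5.trans (mul_le_mul_of_nonneg_right (le_max_left _ _) hr2)
  · obtain ⟨-, h4, h5⟩ := h1 0 n (Nat.zero_le n)
    rw [crQ_zero, Nat.cast_zero, zero_add] at h4 h5
    obtain ⟨h6, h7⟩ := h2 n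
    have hr2 : 0 ≤ (1 / ((n:ℝ) + 1)) ^ (2 / 3 : ℝ) := by positivity
    constructor
    · calc min c (c' * c) * (1 / ((n:ℝ) + 1)) ^ (2 / 3 : ℝ)
          ≤ c' * c * (1 / ((n:ℝ) + 1)) ^ (2 / 3 : ℝ) :=
            mul_le_mul_of_nonneg_right (min_le_right _ _) hr2
        _ = c' * (c * (1 / ((n:ℝ) + 1)) ^ (2 / 3 : ℝ)) := by ring
        _ ≤ c' * piQ n := mul_le_mul_of_nonneg_left h4 hc'.le
        _ ≤ _ := h6
    · calc piQd n ≤ C' * piQ n := h7
        _ ≤ C' * (C * (1 / ((n:ℝ) + 1)) ^ (2 / 3 : ℝ)) := mul_le_mul_of_nonneg_left h5 hC'.le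
        _ = C' * C * (1 / ((n:ℝ) + 1)) ^ (2 / 3 : ℝ) := by ring
        _ ≤ _ := mul_le_mul_of_nonneg_right (le_max_right _ _) hr2

end Pool.Agent.Results.MP_35f495_pr.ArmExponents
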